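import Mathlib
import Pool.Agent.Helpers.H19AsdDefs
import Pool.Agent.Helpers.H19AsdA
import Pool.Agent.Helpers.H19AsdD
import Pool.Agent.Helpers25.GuptaSidki

set_option autoImplicit false

namespace Pool.Agent.Results.MP_ac3292_al.LamplighterNoSplitting

open Pool.Agent.Helpers.H19Asd

/-- There is a finitely generated group `G` whose asymptotic dimension is not at most `1`, with a
Cayley graph coarsely separated by a set of asymptotic dimension at most `0`, which does not split
over any subgroup. -/
theorem result : ∃ (G : Type) (_ : Group G) (S : Set G), S.Finite ∧ Subgroup.closure S = ⊤ ∧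
    ¬ AsdimLE (cayley S) Set.univ 1 ∧
    (∃ X : Set G, AsdimLE (cayley S) X 0 ∧ CoarselySeparates (cayley S) X) ∧
    ∀ C : Subgroup G, ¬ SplitsOver C := by
  obtain ⟨H, _, S, hS, hinf, htor⟩ := Pool.Agent.Helpers25.GS.exists_fg_infinite_torsion
  refine ⟨Lamp (H × H), inferInstance, gens (S : Set H), gens_finite S.finite_toSet,
    gens_closure hS, not_asdim_gens S.finite_toSet hS,
    ⟨_, asdim_ker S.finite_toSet hS, separates S.finite_toSet hS⟩, ?_⟩
  apply not_splitsOver
  apply Lamp.torsion
  rintro ⟨a, b⟩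
  obtain ⟨m, hm, ha⟩ := htor a
  obtain ⟨n, hn, hb⟩ := htor b
  refine ⟨m * n, Nat.mul_pos hm hn, ?_⟩
  rw [Prod.pow_mk, pow_mul, ha, one_pow, mul_comm m n, pow_mul, hb, one_pow]
  rfl

end Pool.Agent.Results.MP_ac3292_al.LamplighterNoSplitting
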